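import Pool.Agent.Results.MP_557517_an.CountableProperMAP

/-!
Cutoff operators `δ x - δ y ↦ g x (δ x - δ x₀) - g y (δ y - δ x₀)` of norm at most one, with `g`
locally constant off `x₀`, and when two of them commute.
-/

set_option autoImplicit false
set_option linter.unusedSectionVars false

open Set Filter Topology MeasureTheory
open Pool.Agent.H548R3.PFree
open Pool.Agent.Results.MP_557517_an.CountableProperMAP

namespace Pool.Agent.Y603.CM

/-- A function on the line with slope at most one which is constant near each point of a countable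
set and grows at full speed up to an error one. -/
theorem exists_slow (D : Set ℝ) (hD : D.Countable) (u₀ : ℝ) : ∃ ℓ : ℝ → ℝ,
    (∀ u, u ≤ u₀ → ℓ u = 0) ∧ (∀ u v, |ℓ u - ℓ v| ≤ |u - v|) ∧ (∀ u, 0 ≤ ℓ u) ∧
    (∀ u, u - u₀ - 1 ≤ ℓ u) ∧ ∀ u ∈ D, ∀ᶠ v in 𝓝 u, ℓ v = ℓ u := by
  have h0 : volume D < 1 := by
    rw [hD.measure_zero]; exact one_pos
  obtain ⟨V, hDV, hV, hV1⟩ := Set.exists_isOpen_lt_of_lt D 1 h0
  have hfin : ∀ u, volume (Icc u₀ u \ V) ≠ ⊤ := fun u =>
    ne_top_of_le_ne_top (by rw [Real.volume_Icc]; exact ENNReal.ofReal_ne_top)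
      (measure_mono diff_subset)
  have hmono : ∀ u v, u ≤ v → (volume (Icc u₀ u \ V)).toReal ≤ (volume (Icc u₀ v \ V)).toReal := by
    intro u v huv
    exact ENNReal.toReal_mono (hfin v) (measure_mono (diff_subset_diff_left (Icc_subset_Icc_right huv)))
  have hlip : ∀ u v, u ≤ v →
      (volume (Icc u₀ v \ V)).toReal ≤ (volume (Icc u₀ u \ V)).toReal + (v - u) := by
    intro u v huv
    have h1 : Icc u₀ v \ V ⊆ (Icc u₀ u \ V) ∪ Icc u v := by
      rintro w ⟨⟨hw1, hw2⟩, hw3⟩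
      rcases le_total w u with h | h
      · exact Or.inl ⟨⟨hw1, h⟩, hw3⟩
      · exact Or.inr ⟨h, hw2⟩
    have h2 : volume (Icc u₀ v \ V) ≤ volume (Icc u₀ u \ V) + volume (Icc u v) :=
      (measure_mono h1).trans (measure_union_le _ _)
    have h3 := ENNReal.toReal_mono (ENNReal.add_ne_top.2 ⟨hfin u, by
      rw [Real.volume_Icc]; exact ENNReal.ofReal_ne_top⟩) h2
    rw [ENNReal.toReal_add (hfin u) (by rw [Real.volume_Icc]; exact ENNReal.ofReal_ne_top),
      Real.volume_Icc, ENNReal.toReal_ofReal (by linarith)] at h3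
    exact h3
  refine ⟨fun u => (volume (Icc u₀ u \ V)).toReal, ?_, ?_, fun u => ENNReal.toReal_nonneg, ?_, ?_⟩
  · intro u hu
    have h1 : volume (Icc u₀ u \ V) ≤ 0 := by
      refine (measure_mono diff_subset).trans ?_
      rw [Real.volume_Icc]
      simp [hu]
    show (volume (Icc u₀ u \ V)).toReal = 0
    rw [le_antisymm h1 bot_le]
    rfl
  · intro u v
    rcases le_total u v with h | h
    · rw [abs_sub_comm, abs_sub_comm u v, abs_of_nonneg (sub_nonneg.2 (hmono u v h)),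
        abs_of_nonneg (sub_nonneg.2 h)]
      linarith [hlip u v h]
    · rw [abs_of_nonneg (sub_nonneg.2 (hmono v u h)), abs_of_nonneg (sub_nonneg.2 h)]
      linarith [hlip v u h]
  · intro u
    rcases le_total u u₀ with h | h
    · have := ENNReal.toReal_nonneg (a := volume (Icc u₀ u \ V))
      linarith
    · have h1 : Icc u₀ u ⊆ (Icc u₀ u \ V) ∪ V := fun w hw => by
        by_cases hwV : w ∈ V
        · exact Or.inr hwV
        · exact Or.inl ⟨hw, hwV⟩
      have h2 : volume (Icc u₀ u) ≤ volume (Icc u₀ u \ V) + volume V :=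
        (measure_mono h1).trans (measure_union_le _ _)
      have hVt : volume V ≠ ⊤ := (hV1.trans ENNReal.one_lt_top).ne
      have h3 := ENNReal.toReal_mono (ENNReal.add_ne_top.2 ⟨hfin u, hVt⟩) h2
      rw [ENNReal.toReal_add (hfin u) hVt, Real.volume_Icc, ENNReal.toReal_ofReal (by linarith)] at h3
      have h4 : (volume V).toReal ≤ 1 := by
        have := ENNReal.toReal_mono ENNReal.one_ne_top hV1.le
        simpa using this
      linarith
  · intro u hu
    obtain ⟨r, hr, hrV⟩ := Metric.isOpen_iff.1 hV u (hDV hu)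
    filter_upwards [Metric.ball_mem_nhds u hr] with v hv
    have hseg : ∀ a b w, a ∈ Metric.ball u r → b ∈ Metric.ball u r → a ≤ w → w ≤ b → w ∈ V := by
      intro a b w ha hb haw hwb
      refine hrV ?_
      rw [Real.ball_eq_Ioo] at ha hb ⊢
      exact ⟨lt_of_lt_of_le ha.1 haw, lt_of_le_of_lt hwb hb.2⟩
    have huu : u ∈ Metric.ball u r := Metric.mem_ball_self hr
    have : Icc u₀ v \ V = Icc u₀ u \ V := by
      ext w
      constructor
      · rintro ⟨⟨h1, h2⟩, h3⟩
        refine ⟨⟨h1, ?_⟩, h3⟩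
        by_contra hc
        exact h3 (hseg u v w huu hv (not_le.1 hc).le h2)
      · rintro ⟨⟨h1, h2⟩, h3⟩
        refine ⟨⟨h1, ?_⟩, h3⟩
        by_contra hc
        exact h3 (hseg v u w hv huu (not_le.1 hc).le h2)
    show (volume (Icc u₀ v \ V)).toReal = (volume (Icc u₀ u \ V)).toReal
    rw [this]

section

variable {p : ℝ} [hp : Fact (0 < p ∧ p ≤ 1)] {M : Type} [MetricSpace M] {o : M}
  {Z : Type} [NormedAddCommGroup Z] [Module ℝ Z] {δ : M → Z}

/-- A cutoff operator with center `x₀` and cutoff function `g`. -/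
structure Cut (o : M) (δ : M → Z) (x₀ : M) (g : M → ℝ) (T : Z →L[ℝ] Z) : Prop where
  form : ∀ x y, T (δ x - δ y) = g x • (δ x - δ x₀) - g y • (δ y - δ x₀)
  contr : ∀ z, ‖T z‖ ≤ ‖z‖
  loc : ∀ y, y ≠ x₀ → ∀ᶠ z in 𝓝 y, g z = g y
  bdd : x₀ = o ∨ ∃ R : ℝ, ∀ y, R ≤ dist y o → g y = g o

lemma clm_ext (h : IsLipschitzFree p M o Z δ) {A B : Z →L[ℝ] Z}
    (hAB : ∀ x y, A (δ x - δ y) = B (δ x - δ y)) : A = B := by
  have h1 : ∀ x, A (δ x) = B (δ x) := by
    intro x
    have := hAB x o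
    rwa [h.base, sub_zero] at this
  have h2 : EqOn A B (Submodule.span ℝ (Set.range δ) : Set Z) := by
    intro z hz
    have h3 : (Submodule.span ℝ (Set.range δ)) ≤ LinearMap.eqLocus (A : Z →ₗ[ℝ] Z) (B : Z →ₗ[ℝ] Z) := by
      rw [Submodule.span_le]
      rintro _ ⟨x, rfl⟩
      exact h1 x
    exact h3 hz
  ext z
  exact congrFun (Continuous.ext_on h.dense A.continuous B.continuous h2) z

/-- two cutoff operators commute if at each point one of the two functions has the value which it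
takes at the centre of the other -/
theorem comm_of (h : IsLipschitzFree p M o Z δ) {x₁ x₂ : M} {g₁ g₂ : M → ℝ} {T₁ T₂ : Z →L[ℝ] Z}
    (h1 : ∀ x y, T₁ (δ x - δ y) = g₁ x • (δ x - δ x₁) - g₁ y • (δ y - δ x₁))
    (h2 : ∀ x y, T₂ (δ x - δ y) = g₂ x • (δ x - δ x₂) - g₂ y • (δ y - δ x₂))
    (hc : x₁ = x₂ ∨ ∀ y, g₁ y = g₁ x₂ ∨ g₂ y = g₂ x₁) : T₁.comp T₂ = T₂.comp T₁ := by
  refine clm_ext h fun x y => ?_
  simp only [ContinuousLinearMap.comp_apply]
  have a1 : T₁ (T₂ (δ x - δ y)) = g₂ x • (g₁ x • (δ x - δ x₁) - g₁ x₂ • (δ x₂ - δ x₁)) -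
      g₂ y • (g₁ y • (δ y - δ x₁) - g₁ x₂ • (δ x₂ - δ x₁)) := by
    rw [h2 x y, map_sub, map_smul, map_smul, h1, h1]
  have a2 : T₂ (T₁ (δ x - δ y)) = g₁ x • (g₂ x • (δ x - δ x₂) - g₂ x₁ • (δ x₁ - δ x₂)) -
      g₁ y • (g₂ y • (δ y - δ x₂) - g₂ x₁ • (δ x₁ - δ x₂)) := by
    rw [h1 x y, map_sub, map_smul, map_smul, h2, h2]
  rw [a1, a2]
  rcases hc with rfl | hc
  · simp only [sub_self, smul_zero, sub_zero, smul_smul]
    simp only [smul_sub, mul_comm]
  · have key : ∀ y, g₁ y * g₂ y - g₁ x₂ * g₂ y - g₂ x₁ * g₁ y = - (g₁ x₂ * g₂ x₁) := by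
      intro y
      rcases hc y with h | h
      · rw [h]; ring
      · rw [h]; ring
    have hx := key x
    have hy := key y
    have e : ∀ a, g₂ a • (g₁ a • (δ a - δ x₁) - g₁ x₂ • (δ x₂ - δ x₁)) -
        g₁ a • (g₂ a • (δ a - δ x₂) - g₂ x₁ • (δ x₁ - δ x₂)) =
        (g₁ a * g₂ a - g₁ x₂ * g₂ a - g₂ x₁ * g₁ a) • (δ x₂ - δ x₁) := by
      intro a
      module
    have e1 := e x
    have e2 := e y
    rw [hx] at e1
    rw [hy] at e2
    have e3 : (g₂ x • (g₁ x • (δ x - δ x₁) - g₁ x₂ • (δ x₂ - δ x₁)) -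
        g₂ y • (g₁ y • (δ y - δ x₁) - g₁ x₂ • (δ x₂ - δ x₁))) -
        (g₁ x • (g₂ x • (δ x - δ x₂) - g₂ x₁ • (δ x₁ - δ x₂)) -
        g₁ y • (g₂ y • (δ y - δ x₂) - g₂ x₁ • (δ x₁ - δ x₂))) = 0 := by
      rw [sub_sub_sub_comm, e1, e2, sub_self]
    exact sub_eq_zero.1 e3

/-- cutoff near a point, with a locally constant function -/
theorem near (h : IsLipschitzFree p M o Z δ) [Countable M] (C : Set Z) (hC : IsCompact C) {η : ℝ}
    (hη : 0 < η) (x₀ : M) {ρ : ℝ} (hρ : 0 < ρ) : ∃ (T : Z →L[ℝ] Z) (g : M → ℝ) (r c : ℝ), 0 < r ∧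
      (∀ x y, T (δ x - δ y) = g x • (δ x - δ x₀) - g y • (δ y - δ x₀)) ∧ (∀ z, ‖T z‖ ≤ ‖z‖) ∧
      (∀ x, x ≠ x₀ → dist x x₀ < r → g x = 0) ∧ (∀ x, ρ ≤ dist x x₀ → g x = c) ∧
      (∀ y, y ≠ x₀ → ∀ᶠ z in 𝓝 y, g z = g y) ∧ ∀ z ∈ C, ‖T z - z‖ < η := by
  classical
  obtain ⟨A, ε, s, hε, hε1, hs, hes, hA⟩ := cut_approx h C hC hη
  obtain ⟨d, hd, hdA⟩ : ∃ d : ℝ, 0 < d ∧ ∀ a ∈ A, a ≠ x₀ → d ≤ dist a x₀ := by
    clear hA
    induction A using Finset.induction_on with
    | empty => exact ⟨1, one_pos, fun a ha => absurd ha (Finset.notMem_empty a)⟩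
    | insert b A _ ih =>
      obtain ⟨d, hd, hdA⟩ := ih
      rcases eq_or_ne b x₀ with rfl | hb
      · refine ⟨d, hd, fun a ha hne => ?_⟩
        rcases Finset.mem_insert.1 ha with rfl | ha
        · exact absurd rfl hne
        · exact hdA a ha hne
      · refine ⟨min d (dist b x₀), lt_min hd (dist_pos.2 hb), fun a ha hne => ?_⟩
        rcases Finset.mem_insert.1 ha with rfl | ha
        · exact min_le_right _ _
        · exact (min_le_left _ _).trans (hdA a ha hne)
  set d' : ℝ := min d ρ with hd'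
  have hd'0 : 0 < d' := lt_min hd hρ
  set r : ℝ := d' * Real.exp (-((1 - ε) / s + 1)) with hr
  have hr0 : 0 < r := mul_pos hd'0 (Real.exp_pos _)
  have hlogr : Real.log r = Real.log d' - ((1 - ε) / s + 1) := by
    rw [hr, Real.log_mul hd'0.ne' (Real.exp_pos _).ne', Real.log_exp]
    ring
  obtain ⟨ℓ, hℓ0, hℓ1, hℓ2, hℓ3, hℓ4⟩ := exists_slow (range fun x : M => Real.log (dist x x₀))
    (countable_range _) (Real.log r)
  let g : M → ℝ := fun x => if x = x₀ then 0 else
    max 0 (min (1 - ε) (s * ℓ (Real.log (dist x x₀))))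
  have hgx : ∀ x, x ≠ x₀ → g x = max 0 (min (1 - ε) (s * ℓ (Real.log (dist x x₀)))) :=
    fun x hx => if_neg hx
  have hg0 : ∀ x, 0 ≤ g x := fun x => by
    show 0 ≤ if x = x₀ then 0 else max 0 (min (1 - ε) (s * ℓ (Real.log (dist x x₀))))
    split_ifs
    · exact le_rfl
    · exact le_max_left _ _
  have hg1 : ∀ x, g x ≤ 1 - ε := fun x => by
    show (if x = x₀ then 0 else max 0 (min (1 - ε) (s * ℓ (Real.log (dist x x₀))))) ≤ 1 - ε
    split_ifs
    · linarith
    · exact max_le (by linarith) (min_le_left _ _)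
  have hbig : ∀ x, d' ≤ dist x x₀ → g x = 1 - ε := by
    intro x hx
    have hne : x ≠ x₀ := by
      rintro rfl
      rw [dist_self] at hx
      linarith
    rw [hgx x hne]
    have h1 : Real.log d' ≤ Real.log (dist x x₀) := Real.log_le_log hd'0 hx
    have h2 : 1 - ε ≤ s * ℓ (Real.log (dist x x₀)) := by
      have h3 := hℓ3 (Real.log (dist x x₀))
      have h4 : (1 - ε) / s ≤ ℓ (Real.log (dist x x₀)) := by linarith
      rw [div_le_iff₀ hs] at h4
      linarith
    rw [min_eq_left h2, max_eq_right (by linarith)]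
  obtain ⟨T, hT1, hT2⟩ := exists_cut h x₀ g hε hε1 hs.le hes hg0 hg1 (fun x y hx hxy => by
      have hdx : 0 < dist x x₀ := dist_pos.2 hx
      have hy : y ≠ x₀ := by
        rintro rfl
        rw [dist_self] at hxy
        linarith
      rw [hgx x hx, hgx y hy]
      have h1 := clamp_sub_le (1 - ε) (s * ℓ (Real.log (dist x x₀)))
        (s * ℓ (Real.log (dist y x₀)))
      rw [← mul_sub, abs_mul, abs_of_pos hs] at h1
      have h2 := hℓ1 (Real.log (dist x x₀)) (Real.log (dist y x₀))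
      have h3 := log_sub_mul_le hdx hxy
      have h4 : dist y x₀ - dist x x₀ ≤ dist x y := by
        have := dist_triangle_left y x₀ x
        linarith
      calc _ ≤ (s * |Real.log (dist x x₀) - Real.log (dist y x₀)|) * dist x x₀ :=
            mul_le_mul_of_nonneg_right (h1.trans (mul_le_mul_of_nonneg_left h2 hs.le)) dist_nonneg
        _ = s * (|Real.log (dist x x₀) - Real.log (dist y x₀)| * dist x x₀) := by ring
        _ ≤ s * dist x y := mul_le_mul_of_nonneg_left (h3.trans h4) hs.le)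
  refine ⟨T, g, r, 1 - ε, hr0, hT1, hT2, fun x hx hxr => ?_, fun x hx => ?_, fun y hy => ?_,
    hA x₀ T g hT1 hT2 fun x hx hne => ?_⟩
  · have h1 : Real.log (dist x x₀) ≤ Real.log r := Real.log_le_log (dist_pos.2 hx) hxr.le
    rw [hgx x hx, hℓ0 _ h1, mul_zero, min_eq_right (by linarith), max_self]
  · exact hbig x ((min_le_right _ _).trans hx)
  · have h1 : Tendsto (fun z => Real.log (dist z x₀)) (𝓝 y) (𝓝 (Real.log (dist y x₀))) :=
      ((continuous_id.dist continuous_const).tendsto y).log (dist_pos.2 hy).ne'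
    filter_upwards [h1.eventually (hℓ4 _ ⟨y, rfl⟩), isOpen_ne.mem_nhds hy] with z hz hz2
    rw [hgx z hz2, hgx y hy, hz]
  · exact hbig x ((min_le_left _ _).trans (hdA x hx hne))

/-- cutoff at infinity, with a locally constant function -/
theorem far (h : IsLipschitzFree p M o Z δ) [Countable M] (C : Set Z) (hC : IsCompact C) {η : ℝ}
    (hη : 0 < η) (R₁ : ℝ) : ∃ (T : Z →L[ℝ] Z) (g : M → ℝ) (R c : ℝ),
      (∀ x y, T (δ x - δ y) = g x • (δ x - δ o) - g y • (δ y - δ o)) ∧ (∀ z, ‖T z‖ ≤ ‖z‖) ∧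
      (∀ x, x ≠ o → R < dist x o → g x = 0) ∧ (∀ x, dist x o ≤ R₁ → g x = c) ∧
      (∀ y, y ≠ o → ∀ᶠ z in 𝓝 y, g z = g y) ∧ (∀ z ∈ C, ‖T z - z‖ < η) := by
  classical
  obtain ⟨A, ε, s, hε, hε1, hs, hes, hA⟩ := cut_approx h C hC hη
  set R₀ : ℝ := 1 + |R₁| + ∑ a ∈ A, dist a o with hR₀
  have hsum : 0 ≤ ∑ a ∈ A, dist a o := Finset.sum_nonneg fun _ _ => dist_nonneg
  have hR₀0 : 0 < R₀ := by
    have := abs_nonneg R₁
    linarith
  set R : ℝ := R₀ * Real.exp ((1 - ε) / s + 1) with hR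
  have hR0 : 0 < R := mul_pos hR₀0 (Real.exp_pos _)
  have hlogR : Real.log R = Real.log R₀ + ((1 - ε) / s + 1) := by
    rw [hR, Real.log_mul hR₀0.ne' (Real.exp_pos _).ne', Real.log_exp]
  obtain ⟨ℓ, hℓ0, hℓ1, hℓ2, hℓ3, hℓ4⟩ := exists_slow (range fun x : M => Real.log (dist x o))
    (countable_range _) (Real.log R₀)
  let g : M → ℝ := fun x => if x = o then 1 - ε else
    max 0 (min (1 - ε) (s * ((1 - ε) / s - ℓ (Real.log (dist x o)))))
  have hgx : ∀ x, x ≠ o →
      g x = max 0 (min (1 - ε) (s * ((1 - ε) / s - ℓ (Real.log (dist x o))))) :=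
    fun x hx => if_neg hx
  have hg0 : ∀ x, 0 ≤ g x := fun x => by
    show 0 ≤ if x = o then 1 - ε else _
    split_ifs
    · linarith
    · exact le_max_left _ _
  have hg1 : ∀ x, g x ≤ 1 - ε := fun x => by
    show (if x = o then 1 - ε else _) ≤ 1 - ε
    split_ifs
    · exact le_rfl
    · exact max_le (by linarith) (min_le_left _ _)
  have hbig : ∀ x, dist x o ≤ R₀ → g x = 1 - ε := by
    intro x hx
    rcases eq_or_ne x o with rfl | hne
    · exact if_pos rfl
    · rw [hgx x hne]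
      have h1 : Real.log (dist x o) ≤ Real.log R₀ := Real.log_le_log (dist_pos.2 hne) hx
      rw [hℓ0 _ h1, sub_zero, mul_div_cancel₀ _ hs.ne', min_self, max_eq_right (by linarith)]
  obtain ⟨T, hT1, hT2⟩ := exists_cut h o g hε hε1 hs.le hes hg0 hg1 (fun x y hx hxy => by
      have hdx : 0 < dist x o := dist_pos.2 hx
      have hy : y ≠ o := by
        rintro rfl
        rw [dist_self] at hxy
        linarith
      rw [hgx x hx, hgx y hy]
      have h1 := clamp_sub_le (1 - ε) (s * ((1 - ε) / s - ℓ (Real.log (dist x o))))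
        (s * ((1 - ε) / s - ℓ (Real.log (dist y o))))
      rw [← mul_sub, abs_mul, abs_of_pos hs, sub_sub_sub_cancel_left] at h1
      have h2 := hℓ1 (Real.log (dist y o)) (Real.log (dist x o))
      rw [abs_sub_comm (Real.log (dist y o))] at h2
      have h3 := log_sub_mul_le hdx hxy
      have h4 : dist y o - dist x o ≤ dist x y := by
        have := dist_triangle_left y o x
        linarith
      calc _ ≤ (s * |Real.log (dist x o) - Real.log (dist y o)|) * dist x o :=
            mul_le_mul_of_nonneg_right (h1.trans (mul_le_mul_of_nonneg_left h2 hs.le)) dist_nonneg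
        _ = s * (|Real.log (dist x o) - Real.log (dist y o)| * dist x o) := by ring
        _ ≤ s * dist x y := mul_le_mul_of_nonneg_left (h3.trans h4) hs.le)
  refine ⟨T, g, R, 1 - ε, hT1, hT2, fun x hx hxR => ?_, fun x hx => ?_, fun y hy => ?_,
    hA o T g hT1 hT2 fun x hx hne => ?_⟩
  · have h1 : Real.log R ≤ Real.log (dist x o) := Real.log_le_log hR0 hxR.le
    have h3 := hℓ3 (Real.log (dist x o))
    rw [hgx x hx, max_eq_left]
    refine (min_le_right _ _).trans (mul_nonpos_of_nonneg_of_nonpos hs.le ?_)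
    linarith
  · refine hbig x ?_
    have := le_abs_self R₁
    linarith
  · have h1 : Tendsto (fun z => Real.log (dist z o)) (𝓝 y) (𝓝 (Real.log (dist y o))) :=
      ((continuous_id.dist continuous_const).tendsto y).log (dist_pos.2 hy).ne'
    filter_upwards [h1.eventually (hℓ4 _ ⟨y, rfl⟩), isOpen_ne.mem_nhds hy] with z hz hz2
    rw [hgx z hz2, hgx y hy, hz]
  · refine hbig x ?_
    have : dist x o ≤ ∑ a ∈ A, dist a o :=
      Finset.single_le_sum (f := fun a => dist a o) (fun _ _ => dist_nonneg) hx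
    have h2 := abs_nonneg R₁
    linarith

end

end Pool.Agent.Y603.CM
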