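import Pool.Agent.Y603.CM.Cuts

/-!
Finite products of commuting cutoff operators of finite rank, which commute with given cutoff
operators.
-/

set_option autoImplicit false
set_option linter.unusedSectionVars false

open Set Filter Topology
open Pool.Agent.H548R3.PFree
open Pool.Agent.Results.MP_557517_an.CountableProperMAP

namespace Pool.Agent.Y603.CM

variable {p : ℝ} [hp : Fact (0 < p ∧ p ≤ 1)] {M : Type} [MetricSpace M] {o : M}
  {Z : Type} [NormedAddCommGroup Z] [Module ℝ Z] {δ : M → Z}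

/-- data of a cutoff operator -/
abbrev Cd (M Z : Type) [MetricSpace M] [NormedAddCommGroup Z] [Module ℝ Z] : Type :=
  M × (M → ℝ) × (Z →L[ℝ] Z)

/-- the composition of the operators of a list -/
def pr : List (Cd M Z) → (Z →L[ℝ] Z)
  | [] => ContinuousLinearMap.id ℝ Z
  | c :: l => c.2.2.comp (pr l)

/-- all cutoffs of the list are cutoff operators -/
def AllCut (o : M) (δ : M → Z) (L : List (Cd M Z)) : Prop := ∀ c ∈ L, Cut o δ c.1 c.2.1 c.2.2

lemma pr_comm {l : List (Cd M Z)} {B : Z →L[ℝ] Z}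
    (h : ∀ c ∈ l, c.2.2.comp B = B.comp c.2.2) : (pr l).comp B = B.comp (pr l) := by
  induction l with
  | nil => rfl
  | cons c l ih =>
    have h1 := ih fun c' hc' => h c' (List.mem_cons_of_mem _ hc')
    have h2 := h c List.mem_cons_self
    show (c.2.2.comp (pr l)).comp B = B.comp (c.2.2.comp (pr l))
    rw [ContinuousLinearMap.comp_assoc, h1, ← ContinuousLinearMap.comp_assoc, h2,
      ContinuousLinearMap.comp_assoc]

lemma exists_rho {L : List (Cd M Z)} (hL : AllCut o δ L) (x₀ : M) : ∃ ρ : ℝ, 0 < ρ ∧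
    ∀ c ∈ L, c.1 ≠ x₀ → ρ ≤ dist c.1 x₀ ∧ ∀ y, dist y x₀ < ρ → c.2.1 y = c.2.1 x₀ := by
  induction L with
  | nil => exact ⟨1, one_pos, fun c hc => absurd hc List.not_mem_nil⟩
  | cons c L ih =>
    obtain ⟨ρ, hρ, h1⟩ := ih fun c' hc' => hL c' (List.mem_cons_of_mem _ hc')
    by_cases hc : c.1 = x₀
    · refine ⟨ρ, hρ, fun c' hc' hne => ?_⟩
      rcases List.mem_cons.1 hc' with rfl | hc'
      · exact absurd hc hne
      · exact h1 c' hc' hne
    · have h2 := (hL c List.mem_cons_self).loc x₀ (fun h => hc h.symm)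
      obtain ⟨ρ', hρ', h3⟩ := Metric.eventually_nhds_iff.1 h2
      refine ⟨min ρ (min ρ' (dist c.1 x₀)), lt_min hρ (lt_min hρ' (dist_pos.2 hc)),
        fun c' hc' hne => ?_⟩
      rcases List.mem_cons.1 hc' with rfl | hc'
      · exact ⟨(min_le_right _ _).trans (min_le_right _ _), fun y hy =>
          h3 (hy.trans_le ((min_le_right _ _).trans (min_le_left _ _)))⟩
      · obtain ⟨h4, h5⟩ := h1 c' hc' hne
        exact ⟨(min_le_left _ _).trans h4, fun y hy => h5 y (hy.trans_le (min_le_left _ _))⟩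

lemma exists_R {L : List (Cd M Z)} (hL : AllCut o δ L) : ∃ R : ℝ,
    ∀ c ∈ L, c.1 ≠ o → dist c.1 o ≤ R ∧ ∀ y, R ≤ dist y o → c.2.1 y = c.2.1 o := by
  induction L with
  | nil => exact ⟨1, fun c hc => absurd hc List.not_mem_nil⟩
  | cons c L ih =>
    obtain ⟨R, h1⟩ := ih fun c' hc' => hL c' (List.mem_cons_of_mem _ hc')
    rcases (hL c List.mem_cons_self).bdd with hc | ⟨R', hR'⟩
    · refine ⟨R, fun c' hc' hne => ?_⟩
      rcases List.mem_cons.1 hc' with rfl | hc'
      · exact absurd hc hne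
      · exact h1 c' hc' hne
    · refine ⟨max R (max R' (dist c.1 o)), fun c' hc' hne => ?_⟩
      rcases List.mem_cons.1 hc' with rfl | hc'
      · exact ⟨(le_max_right _ _).trans (le_max_right _ _), fun y hy =>
          hR' y (((le_max_left _ _).trans (le_max_right _ _)).trans hy)⟩
      · obtain ⟨h4, h5⟩ := h1 c' hc' hne
        exact ⟨h4.trans (le_max_left _ _), fun y hy => h5 y ((le_max_left _ _).trans hy)⟩

lemma new_near (h : IsLipschitzFree p M o Z δ) [Countable M] {L : List (Cd M Z)}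
    (hL : AllCut o δ L) (C : Set Z) (hC : IsCompact C) {η : ℝ} (hη : 0 < η) (x₀ : M) :
    ∃ (c : Cd M Z) (r : ℝ), c.1 = x₀ ∧ 0 < r ∧ Cut o δ c.1 c.2.1 c.2.2 ∧
      (∀ x, x ≠ x₀ → dist x x₀ < r → c.2.1 x = 0) ∧ (∀ z ∈ C, ‖c.2.2 z - z‖ < η) ∧
      ∀ c' ∈ L, c.2.2.comp c'.2.2 = c'.2.2.comp c.2.2 := by
  obtain ⟨ρ, hρ, h1⟩ := exists_rho hL x₀
  obtain ⟨ρ', hρ', h2⟩ : ∃ ρ' : ℝ, 0 < ρ' ∧ (x₀ ≠ o → ρ' ≤ dist o x₀) := by
    rcases eq_or_ne x₀ o with hx | hx
    · exact ⟨1, one_pos, fun hc => absurd hx hc⟩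
    · exact ⟨dist o x₀, dist_pos.2 hx.symm, fun _ => le_rfl⟩
  obtain ⟨T, g, r, c, hr, hT, hTn, hg, hgc, hloc, hTC⟩ :=
    near h C hC hη x₀ (ρ := min ρ ρ') (lt_min hρ hρ')
  refine ⟨(x₀, g, T), r, rfl, hr, ⟨hT, hTn, hloc, ?_⟩, hg, hTC, fun c' hc' => ?_⟩
  · rcases eq_or_ne x₀ o with hx | hx
    · exact Or.inl hx
    · refine Or.inr ⟨dist x₀ o + min ρ ρ', fun y hy => ?_⟩
      have h3 : min ρ ρ' ≤ dist y x₀ := by
        have := dist_triangle y x₀ o
        linarith
      show g y = g o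
      rw [hgc y h3, hgc o ((min_le_right _ _).trans (h2 hx))]
  · refine comm_of h hT (hL c' hc').form ?_
    rcases eq_or_ne c'.1 x₀ with hx | hx
    · exact Or.inl hx.symm
    · obtain ⟨h3, h4⟩ := h1 c' hc' hx
      refine Or.inr fun y => ?_
      rcases lt_or_ge (dist y x₀) (min ρ ρ') with hy | hy
      · exact Or.inr (h4 y (hy.trans_le (min_le_left _ _)))
      · left
        rw [hgc y hy, hgc c'.1 ((min_le_left _ _).trans h3)]

lemma new_far (h : IsLipschitzFree p M o Z δ) [Countable M] {L : List (Cd M Z)}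
    (hL : AllCut o δ L) (C : Set Z) (hC : IsCompact C) {η : ℝ} (hη : 0 < η) :
    ∃ (c : Cd M Z) (R : ℝ), c.1 = o ∧ Cut o δ c.1 c.2.1 c.2.2 ∧
      (∀ x, x ≠ o → R < dist x o → c.2.1 x = 0) ∧ (∀ z ∈ C, ‖c.2.2 z - z‖ < η) ∧
      ∀ c' ∈ L, c.2.2.comp c'.2.2 = c'.2.2.comp c.2.2 := by
  obtain ⟨R₁, h1⟩ := exists_R hL
  obtain ⟨T, g, R, c, hT, hTn, hg, hgc, hloc, hTC⟩ := far h C hC hη R₁
  refine ⟨(o, g, T), R, rfl, ⟨hT, hTn, hloc, Or.inl rfl⟩, hg, hTC, fun c' hc' => ?_⟩
  refine comm_of h hT (hL c' hc').form ?_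
  rcases eq_or_ne c'.1 o with hx | hx
  · exact Or.inl hx.symm
  · obtain ⟨h3, h4⟩ := h1 c' hc' hx
    refine Or.inr fun y => ?_
    rcases le_total (dist y o) R₁ with hy | hy
    · left
      rw [hgc y hy, hgc c'.1 h3]
    · exact Or.inr (h4 y hy)

theorem level (h : IsLipschitzFree p M o Z δ) [ProperSpace M] [Countable M] {L : List (Cd M Z)}
    (hL : AllCut o δ L) (C : Set Z) (hC : IsCompact C) {η : ℝ} (hη : 0 < η) :
    ∃ l : List (Cd M Z), AllCut o δ l ∧
      (∀ c ∈ l, ∀ c' ∈ l ++ L, c.2.2.comp c'.2.2 = c'.2.2.comp c.2.2) ∧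
      FiniteDimensional ℝ (LinearMap.range (pr l : Z →ₗ[ℝ] Z)) ∧ (∀ z, ‖pr l z‖ ≤ ‖z‖) ∧
      ∀ z ∈ C, ‖pr l z - z‖ < η := by
  classical
  have h0 := hp.out.1
  have : Nonempty M := ⟨o⟩
  obtain ⟨e, he⟩ := exists_surjective_nat M
  obtain ⟨c₀, R, hc₀o, hcut₀, hg₀, hC₀, hcomm₀⟩ := new_far h hL C hC (half_pos hη)
  let P : Set M × List (Cd M Z) → Prop := fun s =>
    AllCut o δ s.2 ∧ (∀ c ∈ s.2, ∀ c' ∈ s.2 ++ L, c.2.2.comp c'.2.2 = c'.2.2.comp c.2.2) ∧
    (∀ z, ‖pr s.2 z‖ ≤ ‖z‖) ∧ ∀ x y, pr s.2 (δ x - δ y) ∈ WW δ s.1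
  have hinit : P (insert o (Metric.closedBall o R), [c₀]) := by
    refine ⟨fun c hc => ?_, fun c hc c' hc' => ?_, fun z => ?_, fun x y => ?_⟩
    · rw [List.mem_singleton] at hc
      rw [hc]; exact hcut₀
    · rw [List.mem_singleton] at hc
      subst hc
      rcases List.mem_cons.1 hc' with rfl | hc'
      · rfl
      · exact hcomm₀ c' (by simpa using hc')
    · exact hcut₀.contr z
    · have hform := hcut₀.form
      rw [hc₀o] at hform
      refine cut_mem (S := Set.univ) (mem_insert _ _) hform (fun x _ hx hgx => ?_) _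
        (Submodule.subset_span ⟨x, mem_univ _, y, mem_univ _, rfl⟩)
      refine mem_insert_of_mem _ ?_
      rw [Metric.mem_closedBall]
      by_contra hcon
      exact hgx (hg₀ x hx (not_le.1 hcon))
  have hstep : ∀ (n : ℕ) (s : {s // P s}), ∃ (s' : {s // P s}) (U : Set M), IsOpen U ∧
      (e n ∈ s.1.1 → e n ∈ U) ∧ (s.1.1 \ s'.1.1 ⊆ U) ∧ (s'.1.1 ∩ U ⊆ {e n}) ∧
      s'.1.1 ⊆ s.1.1 ∧ ∀ z ∈ C, ‖pr s'.1.2 z - pr s.1.2 z‖ < η * (1 / 2) ^ (n + 2) := by
    rintro n ⟨⟨S, l⟩, hA1, hA2, hA3, hA4⟩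
    simp only at hA1 hA2 hA3 hA4
    by_cases hn : e n ∈ S
    · have hall : AllCut o δ (l ++ L) := by
        intro c hc
        rcases List.mem_append.1 hc with hc | hc
        · exact hA1 c hc
        · exact hL c hc
      obtain ⟨c, r, hcx, hr, hcut, hg, hTC, hcomm⟩ := new_near h hall (pr l '' C)
        (hC.image (pr l).continuous) (η := η * (1 / 2) ^ (n + 2)) (by positivity) (e n)
      refine ⟨⟨({x ∈ S | x = e n ∨ r ≤ dist x (e n)}, c :: l), ?_, ?_, fun z => ?_, fun x y => ?_⟩,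
        Metric.ball (e n) r, Metric.isOpen_ball, fun _ => Metric.mem_ball_self hr, ?_, ?_, ?_,
        fun z hz => ?_⟩
      · intro c' hc'
        rcases List.mem_cons.1 hc' with rfl | hc'
        · exact hcut
        · exact hA1 c' hc'
      · intro c1 hc1 c2 hc2
        rcases List.mem_cons.1 hc1 with h1 | h1
        · rcases List.mem_cons.1 hc2 with h2 | h2
          · rw [h1, h2]
          · rw [h1]; exact hcomm c2 h2
        · rcases List.mem_cons.1 hc2 with h2 | h2
          · rw [h2]; exact (hcomm c1 (List.mem_append_left _ h1)).symm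
          · exact hA2 c1 h1 c2 h2
      · exact (hcut.contr _).trans (hA3 z)
      · have hform := hcut.form
        rw [hcx] at hform
        refine cut_mem (S := S) ?_ hform (fun x hx hne hgx => ?_) _ (hA4 x y)
        · exact ⟨hn, Or.inl rfl⟩
        · refine ⟨hx, Or.inr ?_⟩
          by_contra hcon
          exact hgx (hg x hne (not_le.1 hcon))
      · rintro x ⟨hx, hx'⟩
        rw [Metric.mem_ball]
        by_contra hcon
        exact hx' ⟨hx, Or.inr (not_lt.1 hcon)⟩
      · rintro x ⟨⟨-, hx⟩, hx'⟩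
        rw [Metric.mem_ball] at hx'
        rcases hx with hx | hx
        · exact hx
        · linarith
      · exact fun x hx => hx.1
      · exact hTC (pr l z) ⟨z, hz, rfl⟩
    · refine ⟨⟨(S, l), hA1, hA2, hA3, hA4⟩, ∅, isOpen_empty, fun hc => absurd hc hn, ?_, ?_,
        subset_rfl, fun z hz => ?_⟩
      · rw [Set.sdiff_self]
      · rw [inter_empty]; exact empty_subset _
      · rw [sub_self, norm_zero]; positivity
  choose nxt U hU1 hU2 hU3 hU4 hU5 hU6 using hstep
  let S : ℕ → {s // P s} := fun n => Nat.rec ⟨_, hinit⟩ nxt n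
  have hSs : ∀ n, S (n + 1) = nxt n (S n) := fun n => rfl
  have hanti : Antitone fun n => (S n).1.1 := antitone_nat_of_succ_le fun n => by
    show (nxt n (S n)).1.1 ⊆ (S n).1.1
    exact hU5 n (S n)
  have hcover : insert o (Metric.closedBall o R) ⊆ ⋃ n, U n (S n) := by
    intro x hx
    obtain ⟨i, rfl⟩ := he x
    by_contra hcon
    rw [mem_iUnion, not_exists] at hcon
    have h2 : ∀ j, e i ∈ (S j).1.1 := by
      intro j
      induction j with
      | zero => exact hx
      | succ j ih =>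
        by_contra hc
        rw [hSs] at hc
        exact hcon j (hU3 j (S j) ⟨ih, hc⟩)
    exact hcon i (hU2 i (S i) (h2 i))
  have hcomp : IsCompact (insert o (Metric.closedBall o R)) :=
    (isCompact_closedBall o R).insert o
  obtain ⟨t, ht⟩ := hcomp.elim_finite_subcover (fun n => U n (S n)) (fun n => hU1 n (S n)) hcover
  obtain ⟨n, hn⟩ := t.exists_nat_subset_range
  have hfinite : ((S n).1.1).Finite := by
    refine ((Finset.range n).finite_toSet.image e).subset fun x hx => ?_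
    have hx0 : x ∈ insert o (Metric.closedBall o R) := hanti (Nat.zero_le n) hx
    obtain ⟨j, hj, hxj⟩ := mem_iUnion₂.1 (ht hx0)
    have hjn : j < n := Finset.mem_range.1 (hn hj)
    have h2 : x ∈ (S (j + 1)).1.1 := hanti (Nat.succ_le_of_lt hjn) hx
    have h3 : x ∈ ({e j} : Set M) := hU4 j (S j) ⟨h2, hxj⟩
    exact ⟨j, Finset.mem_coe.2 (Finset.mem_range.2 hjn), (mem_singleton_iff.1 h3).symm⟩
  have hbound : ∀ n, ∀ z ∈ C, ‖pr (S n).1.2 z - z‖ < η * (1 - (1 / 2) ^ (n + 1)) := by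
    intro n
    induction n with
    | zero =>
      intro z hz
      have h2 := hC₀ z hz
      have h3 : pr (S 0).1.2 z = c₀.2.2 z := rfl
      rw [h3]
      refine h2.trans_le (le_of_eq ?_)
      norm_num
      ring
    | succ n ih =>
      intro z hz
      have h2 := ih z hz
      have h3 := hU6 n (S n) z hz
      rw [← hSs] at h3
      have h4 : pr (S (n + 1)).1.2 z - z =
          (pr (S (n + 1)).1.2 z - pr (S n).1.2 z) + (pr (S n).1.2 z - z) := by
        abel
      rw [h4]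
      refine (norm_add_le _ _).trans_lt ?_
      refine (add_lt_add h3 h2).trans_le (le_of_eq ?_)
      ring
  refine ⟨(S n).1.2, (S n).2.1, (S n).2.2.1, ?_, (S n).2.2.2.1, fun z hz => ?_⟩
  · have hcs : ContinuousSMul ℝ Z := continuousSMul_of h0 h.banach.1
    have hfin : {z | ∃ x ∈ (S n).1.1, ∃ y ∈ (S n).1.1, z = δ x - δ y}.Finite := by
      refine ((hfinite.prod hfinite).image fun q : M × M => δ q.1 - δ q.2).subset ?_
      rintro z ⟨x, hx, y, hy, rfl⟩
      exact ⟨(x, y), ⟨hx, hy⟩, rfl⟩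
    have hfd : FiniteDimensional ℝ (WW δ (S n).1.1) := FiniteDimensional.span_of_finite ℝ hfin
    have hclosed : IsClosed (WW δ (S n).1.1 : Set Z) := Submodule.closed_of_finiteDimensional _
    have h2 : LinearMap.range (pr (S n).1.2 : Z →ₗ[ℝ] Z) ≤ WW δ (S n).1.1 := by
      rintro _ ⟨z, rfl⟩
      have h3 : ∀ w ∈ (Submodule.span ℝ (Set.range δ) : Set Z),
          pr (S n).1.2 w ∈ (WW δ (S n).1.1 : Set Z) := by
        intro w hw
        have h4 : (Submodule.span ℝ (Set.range δ)).map (pr (S n).1.2 : Z →ₗ[ℝ] Z) ≤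
            WW δ (S n).1.1 := by
          rw [Submodule.map_span, Submodule.span_le]
          rintro _ ⟨_, ⟨x, rfl⟩, rfl⟩
          have h5 := (S n).2.2.2.2 x o
          rw [h.base, sub_zero] at h5
          exact h5
        exact h4 ⟨w, hw, rfl⟩
      have h4 := map_mem_closure (pr (S n).1.2).continuous (h.dense z) h3
      rwa [hclosed.closure_eq] at h4
    exact Submodule.finiteDimensional_of_le h2
  · refine (hbound n z hz).le.trans_lt ?_
    have h2 : (0 : ℝ) < (1 / 2) ^ (n + 1) := by positivity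
    nlinarith

theorem commuting (h : IsLipschitzFree p M o Z δ) [ProperSpace M] [Countable M] :
    ∃ T : ℕ → (Z →L[ℝ] Z), (∀ m n, (T m).comp (T n) = (T n).comp (T m)) ∧
      (∀ n, FiniteDimensional ℝ (LinearMap.range (T n : Z →ₗ[ℝ] Z))) ∧
      (∀ n z, ‖T n z‖ ≤ ‖z‖) ∧ ∀ z, Tendsto (fun n => T n z) atTop (𝓝 z) := by
  classical
  have h0 := hp.out.1
  have : Nonempty M := ⟨o⟩
  obtain ⟨e, he⟩ := exists_surjective_nat M
  have hlev : ∀ (n : ℕ) (L : {L : List (Cd M Z) // AllCut o δ L}), ∃ l : List (Cd M Z),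
      AllCut o δ l ∧ (∀ c ∈ l, ∀ c' ∈ l ++ L.1, c.2.2.comp c'.2.2 = c'.2.2.comp c.2.2) ∧
      FiniteDimensional ℝ (LinearMap.range (pr l : Z →ₗ[ℝ] Z)) ∧ (∀ z, ‖pr l z‖ ≤ ‖z‖) ∧
      ∀ z ∈ (fun j => δ (e j)) '' Set.Iic n, ‖pr l z - z‖ < 1 / ((n : ℝ) + 1) := fun n L =>
    level h L.2 _ ((Set.finite_Iic n).image _).isCompact (by positivity)
  choose l hl1 hl2 hl3 hl4 hl5 using hlev
  let S : ℕ → {L : List (Cd M Z) // AllCut o δ L} := fun n =>
    Nat.rec ⟨[], fun c hc => absurd hc List.not_mem_nil⟩ (fun n L => ⟨l n L ++ L.1, fun c hc => by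
      rcases List.mem_append.1 hc with hc | hc
      · exact hl1 n L c hc
      · exact L.2 c hc⟩) n
  have hS : ∀ n, (S (n + 1)).1 = l n (S n) ++ (S n).1 := fun n => rfl
  have hmem : ∀ m n, m < n → ∀ c ∈ l m (S m), c ∈ (S n).1 := by
    intro m n hmn
    induction n with
    | zero => exact absurd hmn (Nat.not_lt_zero _)
    | succ n ih =>
      intro c hc
      rw [hS]
      rcases Nat.lt_succ_iff_lt_or_eq.1 hmn with h1 | rfl
      · exact List.mem_append_right _ (ih h1 c hc)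
      · exact List.mem_append_left _ hc
  have hcomm : ∀ m n, m < n →
      (pr (l m (S m))).comp (pr (l n (S n))) = (pr (l n (S n))).comp (pr (l m (S m))) := by
    intro m n hmn
    refine pr_comm fun c hc => ?_
    symm
    refine pr_comm fun c' hc' => ?_
    exact hl2 n (S n) c' hc' c (List.mem_append_right _ (hmem m n hmn c hc))
  refine ⟨fun n => pr (l n (S n)), fun m n => ?_, fun n => hl3 n _, fun n => hl4 n _, fun z => ?_⟩
  · rcases lt_trichotomy m n with h1 | rfl | h1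
    · exact hcomm m n h1
    · rfl
    · exact (hcomm n m h1).symm
  · have hcs : ContinuousSMul ℝ Z := continuousSMul_of h0 h.banach.1
    let W : Submodule ℝ Z :=
      { carrier := {w | Tendsto (fun n => pr (l n (S n)) w) atTop (𝓝 w)}
        add_mem' := fun {a b} ha hb => by
          have := Filter.Tendsto.add (show Tendsto _ _ _ from ha) (show Tendsto _ _ _ from hb)
          simpa [map_add] using this
        zero_mem' := by simp
        smul_mem' := fun c x hx => by
          have := Filter.Tendsto.const_smul (show Tendsto _ _ _ from hx) c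
          simpa [map_smul] using this }
    have hW : Submodule.span ℝ (Set.range δ) ≤ W := by
      rw [Submodule.span_le]
      rintro _ ⟨x, rfl⟩
      obtain ⟨j, rfl⟩ := he x
      show Tendsto (fun n => pr (l n (S n)) (δ (e j))) atTop (𝓝 (δ (e j)))
      rw [tendsto_iff_norm_sub_tendsto_zero]
      refine squeeze_zero' (Eventually.of_forall fun n => norm_nonneg _)
        (g := fun n : ℕ => 1 / ((n : ℝ) + 1)) ?_ tendsto_one_div_add_atTop_nhds_zero_nat
      filter_upwards [eventually_ge_atTop j] with n hn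
      exact (hl5 n (S n) _ ⟨j, hn, rfl⟩).le
    rw [Metric.tendsto_atTop]
    intro ε hε
    obtain ⟨w, hw, hzw⟩ := Metric.mem_closure_iff.1 (h.dense z) (ε / 3) (by positivity)
    have h1 : Tendsto (fun n => pr (l n (S n)) w) atTop (𝓝 w) := hW hw
    obtain ⟨N, hN⟩ := Metric.tendsto_atTop.1 h1 (ε / 3) (by positivity)
    refine ⟨N, fun n hn => ?_⟩
    have h2 := hN n hn
    have h3 := hl4 n (S n) (z - w)
    rw [dist_eq_norm] at hzw h2 ⊢
    have h4 : pr (l n (S n)) z - z = pr (l n (S n)) (z - w) + (pr (l n (S n)) w - w) + (w - z) := by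
      rw [map_sub]; abel
    rw [h4]
    refine norm_add₃_le.trans_lt ?_
    rw [norm_sub_rev w z]
    linarith

end Pool.Agent.Y603.CM
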